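import Pool.Agent.H143.MDS.Curve

/-!
Arcs on normal rational curves, `q` even: for `k ≥ 5` every arc of `PG(k - 1, q)` with at least
`q - √q + k + 3` points lies on exactly one normal rational curve.
-/

set_option autoImplicit false

namespace Pool.Agent.Results.MP_8a9ebc_co.EvenSquareRoot

open Pool.Agent.H143.MDS

/-- coordinate vectors of the points of the standard normal rational curve of `PG(k - 1, q)`:
`(1, t, …, t^(k-1))` for `t` in `F` and `(0, …, 0, 1)` -/
def point (F : Type) [Field F] (k : ℕ) : Option F → (Fin k → F)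
  | some t => fun j => t ^ (j : ℕ)
  | none => fun j => if (j : ℕ) = k - 1 then (1 : F) else 0

/-- `C` is a normal rational curve of `PG(k - 1, q)`, a point being a one-dimensional subspace:
the image of the standard one under an invertible matrix -/
def IsNRC (F : Type) [Field F] (k : ℕ) (C : Set (Submodule F (Fin k → F))) : Prop :=
  ∃ A : Matrix (Fin k) (Fin k) F, IsUnit A ∧
    C = {L | ∃ o : Option F, L = Submodule.span F {Matrix.mulVec A (point F k o)}}

theorem point_eq (F : Type) [Field F] (k : ℕ) (o : Option F) : point F k o = pt k o := by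
  cases o <;> rfl

theorem result (F : Type) [Field F] [Fintype F] [CharP F 2] (k t n : ℕ) (hk : 5 ≤ k) (ht : 4 ≤ t)
    (hq : (t + 4) ^ 2 ≤ Fintype.card F ∨ 3 * t ^ 2 + 2 ≤ Fintype.card F + 5 * t)
    (hn : Fintype.card F + k ≤ n + t + 1) (v : Fin n → (Fin k → F))
    (hv : ∀ s : Finset (Fin n), s.card = k → LinearIndependent F (fun i : s => v i)) :
    ∃! C : Set (Submodule F (Fin k → F)), IsNRC F k C ∧ ∀ i, Submodule.span F {v i} ∈ C := by
  classical
  have hR : Rng (Fintype.card F) t := by
    rcases hq with h | h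
    · exact Or.inr h
    · exact Or.inl h
  obtain ⟨-, -, hnk, M, u, c, hM, hu, hc, hvi⟩ := nrc_explicit hk ht hR v hv hn
  refine ⟨{L | ∃ o : Option F, L = Submodule.span F {Matrix.mulVec M (point F k o)}},
    ⟨⟨M, ?_, rfl⟩, ?_⟩, ?_⟩
  · rw [Matrix.isUnit_iff_isUnit_det]; exact isUnit_iff_ne_zero.mpr hM
  · intro i
    obtain ⟨d, hd, hnu⟩ := nu_par k (u i) (hu.1 i)
    refine ⟨par (u i), ?_⟩
    rw [point_eq, hvi i, hnu, Matrix.mulVec_smul, smul_smul,
      Submodule.span_singleton_smul_eq (isUnit_iff_ne_zero.mpr (mul_ne_zero (hc i) hd))]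
  · rintro C' ⟨⟨A, hA, rfl⟩, hC⟩
    have hAd : A.det ≠ 0 := by
      rw [Matrix.isUnit_iff_isUnit_det] at hA
      exact hA.ne_zero
    have h1 : ∀ i, ∃ (w : Fin 2 → F) (d : F), w ≠ 0 ∧ d ≠ 0 ∧ v i = d • A.mulVec (nu k w) := by
      intro i
      obtain ⟨o, ho⟩ := hC i
      have hvne : v i ≠ 0 := by
        rw [hvi i]
        intro h0
        obtain ⟨e, he, hnu⟩ := nu_par k (u i) (hu.1 i)
        rw [smul_eq_zero] at h0
        rcases h0 with h0 | h0
        · exact hc i h0
        · have h2 : nu k (u i) = 0 := by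
            have h3 := congrArg (fun x => M⁻¹.mulVec x) h0
            simpa [Matrix.mulVec_mulVec, Matrix.nonsing_inv_mul _ (isUnit_iff_ne_zero.mpr hM)]
              using h3
          rw [hnu, smul_eq_zero] at h2
          rcases h2 with h2 | h2
          · exact he h2
          · have hk0 : 0 < k := by omega
            rcases hp : par (u i) with _ | s
            · rw [hp] at h2
              have := congrFun h2 ⟨k - 1, by omega⟩
              simp [pt] at this
            · rw [hp] at h2
              have := congrFun h2 ⟨0, hk0⟩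
              simp [pt] at this
      have h4 : v i ∈ Submodule.span F {A.mulVec (point F k o)} := by
        rw [← ho]; exact Submodule.mem_span_singleton_self _
      obtain ⟨d, hd⟩ := Submodule.mem_span_singleton.mp h4
      have hd0 : d ≠ 0 := by
        rintro rfl
        exact hvne (by rw [← hd, zero_smul])
      rw [point_eq] at hd
      rcases o with _ | s
      · refine ⟨![0, 1], d, ?_, hd0, ?_⟩
        · intro h0
          have := congrFun h0 1
          simp at this
        · rw [nu_none, hd]
      · refine ⟨![1, s], d, ?_, hd0, ?_⟩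
        · intro h0
          have := congrFun h0 0
          simp at this
        · rw [nu_some, hd]
    choose w d hw hd hwd using h1
    obtain ⟨g, c₀, hg, hc₀, hx⟩ := nrc_unique (by omega) hnk v M A hM hAd u w hu hw c d hc hd
      hvi hwd
    have hgU : IsUnit g.det := isUnit_iff_ne_zero.mpr hg
    have hginj : ∀ x : Fin 2 → F, x ≠ 0 → g.mulVec x ≠ 0 := by
      intro x hx0 h0
      exact hx0 (Matrix.eq_zero_of_mulVec_eq_zero hg h0)
    have hto : ∀ (B : Matrix (Fin k) (Fin k) F) (x : Fin 2 → F), x ≠ 0 → ∀ e : F, e ≠ 0 →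
        Submodule.span F {e • B.mulVec (nu k x)} =
          Submodule.span F {B.mulVec (point F k (par x))} := by
      intro B x hx0 e he
      obtain ⟨a, ha, hnu⟩ := nu_par k x hx0
      rw [point_eq, hnu, Matrix.mulVec_smul, smul_smul,
        Submodule.span_singleton_smul_eq (isUnit_iff_ne_zero.mpr (mul_ne_zero he ha))]
    have hrep : ∀ o : Option F, ∃ x : Fin 2 → F, x ≠ 0 ∧ pt k o = nu k x := by
      intro o
      rcases o with _ | s
      · refine ⟨![0, 1], ?_, (nu_none k).symm⟩
        intro h0
        have := congrFun h0 1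
        simp at this
      · refine ⟨![1, s], ?_, (nu_some k s).symm⟩
        intro h0
        have := congrFun h0 0
        simp at this
    ext L
    constructor
    · rintro ⟨o, rfl⟩
      obtain ⟨x, hx0, hox⟩ := hrep o
      -- x = g y
      have hy0 : g⁻¹.mulVec x ≠ 0 := by
        intro h0
        apply hx0
        have h3 := congrArg (fun y => g.mulVec y) h0
        simp only [Matrix.mulVec_mulVec, Matrix.mulVec_zero] at h3
        rwa [Matrix.mul_nonsing_inv _ hgU, Matrix.one_mulVec] at h3
      have h5 := hx (g⁻¹.mulVec x)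
      rw [Matrix.mulVec_mulVec, Matrix.mul_nonsing_inv _ hgU, Matrix.one_mulVec] at h5
      refine ⟨par (g⁻¹.mulVec x), ?_⟩
      have h6 := hto M (g⁻¹.mulVec x) hy0 1 one_ne_zero
      rw [one_smul, h5] at h6
      rw [← h6, point_eq, hox, Submodule.span_singleton_smul_eq (isUnit_iff_ne_zero.mpr hc₀)]
    · rintro ⟨o, rfl⟩
      obtain ⟨x, hx0, hox⟩ := hrep o
      refine ⟨par (g.mulVec x), ?_⟩
      rw [point_eq, hox, hx x]
      exact hto A (g.mulVec x) (hginj x hx0) c₀ hc₀

end Pool.Agent.Results.MP_8a9ebc_co.EvenSquareRoot
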