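import Pool.Agent.H143.MDS.DualOnC
import Pool.Agent.H143.MDS.GoodIff

/-!
The set of Q1 for `q = 2^h`, `h = 5` or `h ≥ 7`, in the upper dimensions `k ≥ q - √q + 3`.
-/

set_option autoImplicit false

namespace Pool.Agent.Results.MP_8a9ebc_co.UpperDimensions

open Pool.Agent.H143.MDS

/-- coordinate vectors of the points of the standard normal rational curve: `(t^(k-1), …, t, 1)`
for `t` in `F` and `(1, 0, …, 0)` -/
def point {F : Type} [Field F] (k : ℕ) : Option F → (Fin k → F)
  | some t => fun i => t ^ (k - 1 - (i : ℕ))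
  | none => fun i => if (i : ℕ) = 0 then 1 else 0

/-- `C` is a normal rational curve of `PG(k - 1, q)` -/
def IsNRC {F : Type} [Field F] {k : ℕ} (C : Set (Submodule F (Fin k → F))) : Prop :=
  ∃ e : (Fin k → F) ≃ₗ[F] (Fin k → F), C = Set.range fun t : Option F => F ∙ e (point k t)

/-- a set of points of `PG(k-1,q)` of which at most `k - 1` lie in any hyperplane -/
def IsArc {F : Type} [Field F] {k : ℕ} (A : Set (Submodule F (Fin k → F))) : Prop :=
  (∀ P ∈ A, ∃ x : Fin k → F, x ≠ 0 ∧ P = F ∙ x) ∧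
    ∀ f : (Fin k → F) →ₗ[F] F, f ≠ 0 → {P | P ∈ A ∧ P ≤ LinearMap.ker f}.ncard ≤ k - 1

/-- the set of Q1 -/
def Good (F : Type) [Field F] [Fintype F] (k : ℕ) : Set ℕ :=
  {n | k ≤ n ∧ n ≤ Fintype.card F ∧ ∀ A : Set (Submodule F (Fin k → F)), IsArc A → A.ncard = n →
    ∃ C, IsNRC C ∧ A ⊆ C}

theorem point_eq {F : Type} [Field F] (k : ℕ) (o : Option F) :
    point k o = Pool.Agent.Helper17.NRC.nu k o := by cases o <;> rfl

theorem good_eq (F : Type) [Field F] [Fintype F] (k : ℕ) :
    Good F k = Pool.Agent.Helper17.NRC.Good F k := by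
  have h1 : ∀ C : Set (Submodule F (Fin k → F)), IsNRC C ↔ Pool.Agent.Helper17.NRC.IsNRC C := by
    intro C
    simp only [IsNRC, Pool.Agent.Helper17.NRC.IsNRC, point_eq]
  ext n
  simp only [Good, Pool.Agent.Helper17.NRC.Good, Set.mem_ofPred_eq, h1]
  exact Iff.rfl

theorem transfer {F : Type} [Field F] [Fintype F] {n k k' : ℕ} (hkk : k + k' = n) (hk : 1 ≤ k)
    (hk' : 1 ≤ k') (hn : n ≤ Fintype.card F)
    (h : ∀ v : Fin n → (Fin k → F), ArcV v → OnC v) (w : Fin n → (Fin k' → F)) (hw : ArcV w) :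
    OnC w := by
  obtain ⟨v, hv, ho⟩ := dual_exists (k := k') (k' := k) (by omega) w hw
  exact dual_onC (by omega) hk' hk hn w hw v hv ho (h v hv)

theorem result (F : Type) [Field F] [Fintype F] [CharP F 2] (h t k : ℕ)
    (hF : Fintype.card F = 2 ^ h) (hh : h = 5 ∨ 7 ≤ h) (ht : 4 ≤ t)
    (hq : (t + 4) ^ 2 ≤ Fintype.card F ∨ 3 * t ^ 2 + 2 ≤ Fintype.card F + 5 * t)
    (hkt : Fintype.card F ≤ k + t + 1) (hk : k < Fintype.card F) (n : ℕ) :
    n ∈ Good F k ↔ k ≤ n ∧ n ≤ Fintype.card F ∧ (n ≤ k + 2 ∨ k + 5 ≤ n) := by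
  have hR : Rng (Fintype.card F) t := by
    rcases hq with h | h
    · exact Or.inr h
    · exact Or.inl h
  have h2 := hR.two ht
  rw [good_eq]
  constructor
  · intro hgood
    obtain ⟨h3, h4, -⟩ := (Pool.Agent.Helper17.NRC.main_good (by omega) hk n).1 hgood
    refine ⟨h3, h4, ?_⟩
    by_contra hcon
    push Not at hcon
    have h5 := (good_iff (by omega) h3 h4).1 hgood
    rcases (by omega : n = k + 3 ∨ n = k + 4) with h6 | h6
    · have h7 : n ∈ Pool.Agent.Helper17.NRC.Good F 3 :=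
        (good_iff (by norm_num) (by omega) h4).2
          (transfer (k := k) (by omega) (by omega) (by norm_num) h4 h5)
      have := (Pool.Agent.Helper17.NRC.good_three_even (by omega) n).1 h7
      omega
    · have h7 : n ∈ Pool.Agent.Helper17.NRC.Good F 4 :=
        (good_iff (by norm_num) (by omega) h4).2
          (transfer (k := k) (by omega) (by omega) (by norm_num) h4 h5)
      have := (Pool.Agent.Helper17.NRC.good_four_even hF hh n).1 h7
      omega
  · rintro ⟨h3, h4, h5 | h5⟩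
    · exact (Pool.Agent.Helper17.NRC.main_good (by omega) hk n).2 ⟨h3, h4, Or.inl h5⟩
    · refine (good_iff (by omega) h3 h4).2 ?_
      refine transfer (k := n - k) (k' := k) (by omega) (by omega) (by omega) h4 ?_
      intro v hv
      obtain ⟨-, -, -, M, u, c, hM, hu, hc, hvi⟩ :=
        nrc_explicit (t := t) (by omega) ht hR v hv (by omega)
      exact ⟨M, u, c, hM, hu, hc, hvi⟩

end Pool.Agent.Results.MP_8a9ebc_co.UpperDimensions
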